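import Pool.Agent.Helper57.SI.Stmts

/-!
# Row WI: the weighted integrals of the weight and of the defects
-/

set_option autoImplicit false

namespace Pool.Agent.Helper78.SI

open MeasureTheory Set Filter Topology
open Pool.Agent.Helper57.SI
open Pool.Agent.Helper57.QZ (Pr)

theorem wi_gen (hO : ST_OSC) {z K : ℕ} (c : Pr z → ℤ → ℝ) (g : Pr z → ℝ → ℝ)
    (hg : ∀ p x, ((g p x : ℝ) : ℂ) =
      ∑ k ∈ Finset.Icc (-((K + 1 : ℕ) : ℤ)) ((K + 1 : ℕ) : ℤ),
        (c p k : ℂ) * Complex.exp ((((k : ℝ) * x : ℝ) : ℂ) * Complex.I)) (α u H : ℝ)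
    (hH : 0 ≤ H) :
    |(∫ t in u..(u + H), ∏ p, g p (t * Real.log ((p : ℕ) : ℝ) + α)) - H * ∏ p, c p 0| ≤
      2 * 4 ^ ((K + 1) * z) *
        ∏ p, ∑ k ∈ Finset.Icc (-((K + 1 : ℕ) : ℤ)) ((K + 1 : ℕ) : ℤ), |c p k| := by
  have h := hO z (K + 1) c α u H hH
  have e : ∀ t : ℝ, ∏ p : Pr z, ∑ k ∈ Finset.Icc (-((K + 1 : ℕ) : ℤ)) ((K + 1 : ℕ) : ℤ),
      (c p k : ℂ) * Complex.exp ((((k : ℝ) * (t * Real.log ((p : ℕ) : ℝ) + α) : ℝ) : ℂ) *
        Complex.I) = ((∏ p, g p (t * Real.log ((p : ℕ) : ℝ) + α) : ℝ) : ℂ) := by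
    intro t
    rw [Complex.ofReal_prod]
    exact Finset.prod_congr rfl fun p _ => (hg p _).symm
  rw [intervalIntegral.integral_congr
    (g := fun t => ((∏ p, g p (t * Real.log ((p : ℕ) : ℝ) + α) : ℝ) : ℂ)) (fun t _ => e t),
    intervalIntegral.integral_ofReal, ← Complex.ofReal_sub, Complex.norm_real,
    Real.norm_eq_abs] at h
  exact h

theorem wi_card (z : ℕ) : Fintype.card (Pr z) ≤ z := by
  rw [Fintype.card_coe]
  have h : Nat.primesBelow (z + 1) ⊆ Finset.Icc 1 z := by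
    intro p hp
    rw [Nat.mem_primesBelow] at hp
    rw [Finset.mem_Icc]
    exact ⟨hp.2.one_lt.le, Nat.lt_succ_iff.mp hp.1⟩
  have := Finset.card_le_card h
  simpa using this

theorem wi_sum (K : ℕ) (f : ℤ → ℝ) (B : ℝ) (h : ∀ k, |f k| ≤ B) :
    ∑ k ∈ Finset.Icc (-((K + 1 : ℕ) : ℤ)) ((K + 1 : ℕ) : ℤ), |f k| ≤ B * (2 * K + 3) := by
  have h1 := Finset.sum_le_card_nsmul
    (Finset.Icc (-((K + 1 : ℕ) : ℤ)) ((K + 1 : ℕ) : ℤ)) (fun k => |f k|) B (fun k _ => h k)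
  refine h1.trans (le_of_eq ?_)
  rw [nsmul_eq_mul, Int.card_Icc]
  have h2 : (((K + 1 : ℕ) : ℤ) + 1 - -((K + 1 : ℕ) : ℤ)).toNat = 2 * K + 3 := by omega
  rw [h2]
  push_cast
  ring

theorem wi_pow (z K : ℕ) :
    (2 * (K : ℝ) + 3) ^ Fintype.card (Pr z) ≤ (2 * (K : ℝ) + 3) ^ z := by
  have hK : (0 : ℝ) ≤ K := Nat.cast_nonneg K
  exact pow_le_pow_right₀ (by linarith) (wi_card z)

theorem wi_cont (z K : ℕ) (α : ℝ) : Continuous (ww z K α) := by
  unfold ww fej
  fun_prop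

/-- the weighted integral of one defect -/
theorem wi_one (hO : ST_OSC) (hF : ST_FJ1) {z K : ℕ} (hK : 1 ≤ K) (α u H : ℝ) (hH : 0 ≤ H)
    (q : Pr z) : ∫ t in u..(u + H), ww z K α t *
      (1 - Real.cos (t * Real.log ((q : ℕ) : ℝ) + α)) ≤
    H / K + 4 * (4 ^ ((K + 1) * z) * (2 * (K : ℝ) + 3) ^ z) := by
  classical
  obtain ⟨f1, f2, f3, f4, f5⟩ := hF K hK
  have hK0 : (0 : ℝ) ≤ K := Nat.cast_nonneg K
  have h := wi_gen hO (z := z) (K := K) (fun p k => if p = q then gc K k else fc K k)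
    (fun p x => if p = q then fej K x * (1 - Real.cos x) else fej K x) (by
      intro p x
      by_cases hp : p = q
      · simp only [if_pos hp]
        exact f2 x
      · simp only [if_neg hp]
        exact f1 x) α u H hH
  have e1 : ∀ t : ℝ, ∏ p : Pr z, (if p = q then fej K (t * Real.log ((p : ℕ) : ℝ) + α) *
      (1 - Real.cos (t * Real.log ((p : ℕ) : ℝ) + α)) else
        fej K (t * Real.log ((p : ℕ) : ℝ) + α)) =
      ww z K α t * (1 - Real.cos (t * Real.log ((q : ℕ) : ℝ) + α)) := by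
    intro t
    have e2 : ∀ p : Pr z, (if p = q then fej K (t * Real.log ((p : ℕ) : ℝ) + α) *
        (1 - Real.cos (t * Real.log ((p : ℕ) : ℝ) + α)) else
          fej K (t * Real.log ((p : ℕ) : ℝ) + α)) =
        fej K (t * Real.log ((p : ℕ) : ℝ) + α) *
          (if p = q then (1 - Real.cos (t * Real.log ((p : ℕ) : ℝ) + α)) else 1) := by
      intro p
      by_cases hp : p = q
      · rw [if_pos hp, if_pos hp]
      · rw [if_neg hp, if_neg hp, mul_one]
    rw [Finset.prod_congr rfl fun p _ => e2 p, Finset.prod_mul_distrib, Finset.prod_ite_eq'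
      Finset.univ q (fun p : Pr z => 1 - Real.cos (t * Real.log ((p : ℕ) : ℝ) + α)),
      if_pos (Finset.mem_univ q)]
    rfl
  have e3 : ∏ p : Pr z, (if p = q then gc K 0 else fc K 0) = 1 / (K : ℝ) := by
    rw [f3, f4, Finset.prod_ite_eq' Finset.univ q (fun _ => 1 / (K : ℝ)),
      if_pos (Finset.mem_univ q)]
  have e4 : ∏ p : Pr z, ∑ k ∈ Finset.Icc (-((K + 1 : ℕ) : ℤ)) ((K + 1 : ℕ) : ℤ),
      |if p = q then gc K k else fc K k| ≤ 2 * (2 * (K : ℝ) + 3) ^ z := by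
    calc ∏ p : Pr z, ∑ k ∈ Finset.Icc (-((K + 1 : ℕ) : ℤ)) ((K + 1 : ℕ) : ℤ),
          |if p = q then gc K k else fc K k|
        ≤ ∏ p : Pr z, ((if p = q then 2 else 1) * (2 * (K : ℝ) + 3)) := by
          refine Finset.prod_le_prod (fun p _ => Finset.sum_nonneg fun k _ => abs_nonneg _)
            fun p _ => ?_
          by_cases hp : p = q
          · simp only [if_pos hp]
            exact wi_sum K _ 2 fun k => (f5 k).2
          · simp only [if_neg hp]
            exact wi_sum K _ 1 fun k => (f5 k).1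
      _ = 2 * (2 * (K : ℝ) + 3) ^ Fintype.card (Pr z) := by
          rw [Finset.prod_mul_distrib, Finset.prod_ite_eq' Finset.univ q (fun _ => (2 : ℝ)),
            if_pos (Finset.mem_univ q), Finset.prod_const, Finset.card_univ]
      _ ≤ 2 * (2 * (K : ℝ) + 3) ^ z := by linarith [wi_pow z K]
  rw [intervalIntegral.integral_congr
    (g := fun t => ww z K α t * (1 - Real.cos (t * Real.log ((q : ℕ) : ℝ) + α)))
    (fun t _ => e1 t), e3] at h
  have h1 := (abs_le.1 h).2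
  have h2 : 2 * 4 ^ ((K + 1) * z) *
      (∏ p : Pr z, ∑ k ∈ Finset.Icc (-((K + 1 : ℕ) : ℤ)) ((K + 1 : ℕ) : ℤ),
        |if p = q then gc K k else fc K k|) ≤
      2 * 4 ^ ((K + 1) * z) * (2 * (2 * (K : ℝ) + 3) ^ z) :=
    mul_le_mul_of_nonneg_left e4 (by positivity)
  have h3 : H * (1 / (K : ℝ)) = H / K := by ring
  rw [h3] at h1
  linarith

/-- a weighted sum of defects -/
theorem wi_D (hO : ST_OSC) (hF : ST_FJ1) {z K : ℕ} (hK : 1 ≤ K) (α u H : ℝ) (hH : 0 ≤ H)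
    (w : Pr z → ℝ) (hw : ∀ q, 0 ≤ w q) : ∫ t in u..(u + H), ww z K α t *
      (∑ q : Pr z, w q * (1 - Real.cos (t * Real.log ((q : ℕ) : ℝ) + α))) ≤
    (∑ q : Pr z, w q) * (H / K + 4 * (4 ^ ((K + 1) * z) * (2 * (K : ℝ) + 3) ^ z)) := by
  have hc := wi_cont z K α
  have e1 : ∀ t : ℝ, ww z K α t *
      (∑ q : Pr z, w q * (1 - Real.cos (t * Real.log ((q : ℕ) : ℝ) + α))) =
      ∑ q : Pr z, w q * (ww z K α t * (1 - Real.cos (t * Real.log ((q : ℕ) : ℝ) + α))) := by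
    intro t
    rw [Finset.mul_sum]
    exact Finset.sum_congr rfl fun q _ => by ring
  rw [intervalIntegral.integral_congr (g := fun t => ∑ q : Pr z, w q *
    (ww z K α t * (1 - Real.cos (t * Real.log ((q : ℕ) : ℝ) + α)))) (fun t _ => e1 t),
    intervalIntegral.integral_finsetSum (fun q _ => Continuous.intervalIntegrable
      (by fun_prop) _ _), Finset.sum_mul]
  refine Finset.sum_le_sum fun q _ => ?_
  rw [intervalIntegral.integral_const_mul]
  exact mul_le_mul_of_nonneg_left (wi_one hO hF hK α u H hH q) (hw q)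

theorem wi_le (z : ℕ) (w : Pr z → ℝ) (hw : ∀ q, w q ≤ 1) : ∑ q : Pr z, w q ≤ z := by
  have h := Finset.sum_le_card_nsmul (Finset.univ : Finset (Pr z)) w 1 (fun q _ => hw q)
  rw [nsmul_eq_mul, mul_one, Finset.card_univ] at h
  exact h.trans (by exact_mod_cast wi_card z)

theorem wi_P1 (z : ℕ) : ∑ q : Pr z, 1 / ((q : ℕ) : ℝ) = P1 z := by
  unfold P1
  exact Finset.sum_coe_sort (Nat.primesBelow (z + 1)) (fun p => 1 / (p : ℝ))

theorem wi_P2 (z : ℕ) : ∑ q : Pr z, Real.log ((q : ℕ) : ℝ) / ((q : ℕ) : ℝ) = P2 z := by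
  unfold P2
  exact Finset.sum_coe_sort (Nat.primesBelow (z + 1)) (fun p => Real.log p / (p : ℝ))

theorem st_WI (hO : ST_OSC) (hF : ST_FJ1) : ST_WI := by
  intro z K α u H hK hH
  have hK0 : (0 : ℝ) ≤ K := Nat.cast_nonneg K
  have hz0 : (0 : ℝ) ≤ z := Nat.cast_nonneg z
  have hB : (0 : ℝ) ≤ 4 ^ ((K + 1) * z) * (2 * (K : ℝ) + 3) ^ z := by positivity
  have hq1 : ∀ q : Pr z, (1 : ℝ) ≤ ((q : ℕ) : ℝ) := fun q => by
    have := (Nat.mem_primesBelow.1 q.2).2.one_lt.le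
    exact_mod_cast this
  refine ⟨?_, ?_, ?_⟩
  · obtain ⟨f1, f2, f3, f4, f5⟩ := hF K hK
    have h := wi_gen hO (z := z) (K := K) (fun _ => fc K) (fun _ => fej K)
      (fun p x => f1 x) α u H hH
    have e1 : ∏ p : Pr z, fc K 0 = 1 := by rw [f3]; exact Finset.prod_const_one
    have e2 : ∏ p : Pr z, ∑ k ∈ Finset.Icc (-((K + 1 : ℕ) : ℤ)) ((K + 1 : ℕ) : ℤ), |fc K k| ≤
        (2 * (K : ℝ) + 3) ^ z := by
      rw [Finset.prod_const, Finset.card_univ]
      refine le_trans (pow_le_pow_left₀ (Finset.sum_nonneg fun k _ => abs_nonneg _)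
        (wi_sum K _ 1 fun k => (f5 k).1) _) ?_
      rw [one_mul]
      exact wi_pow z K
    rw [e1, mul_one] at h
    exact h.trans (mul_le_mul_of_nonneg_left e2 (by positivity))
  · have h := wi_D hO hF (z := z) hK α u H hH (fun q : Pr z => 1 / ((q : ℕ) : ℝ))
      (fun q => by positivity)
    have hle : P1 z ≤ z := by
      rw [← wi_P1 z]
      exact wi_le z _ fun q => (div_le_one (by linarith [hq1 q])).2 (hq1 q)
    rw [wi_P1 z] at h
    have e1 : ∀ t : ℝ, ww z K α t * D1 z α t = ww z K α t *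
        (∑ q : Pr z, 1 / ((q : ℕ) : ℝ) * (1 - Real.cos (t * Real.log ((q : ℕ) : ℝ) + α))) := by
      intro t
      unfold D1
      congr 1
      exact Finset.sum_congr rfl fun q _ => by ring
    rw [intervalIntegral.integral_congr (fun t _ => e1 t)]
    refine h.trans ?_
    have h2 : P1 z * (4 * (4 ^ ((K + 1) * z) * (2 * (K : ℝ) + 3) ^ z)) ≤
        (z + 1) * (4 * (4 ^ ((K + 1) * z) * (2 * (K : ℝ) + 3) ^ z)) :=
      mul_le_mul_of_nonneg_right (by linarith) (by positivity)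
    have h3 : P1 z * (H / K) = H * P1 z / K := by ring
    nlinarith
  · have h := wi_D hO hF (z := z) hK α u H hH (fun q : Pr z => Real.log ((q : ℕ) : ℝ) / ((q : ℕ) : ℝ))
      (fun q => div_nonneg (Real.log_nonneg (hq1 q)) (by linarith [hq1 q]))
    have hle : P2 z ≤ z := by
      rw [← wi_P2 z]
      refine wi_le z _ fun q => (div_le_one (by linarith [hq1 q])).2 ?_
      have := Real.log_le_sub_one_of_pos (by linarith [hq1 q] : (0 : ℝ) < ((q : ℕ) : ℝ))
      linarith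
    rw [wi_P2 z] at h
    have e1 : ∀ t : ℝ, ww z K α t * D2 z α t = ww z K α t *
        (∑ q : Pr z, Real.log ((q : ℕ) : ℝ) / ((q : ℕ) : ℝ) *
          (1 - Real.cos (t * Real.log ((q : ℕ) : ℝ) + α))) := by
      intro t
      unfold D2
      congr 1
      exact Finset.sum_congr rfl fun q _ => by ring
    rw [intervalIntegral.integral_congr (fun t _ => e1 t)]
    refine h.trans ?_
    have h2 : P2 z * (4 * (4 ^ ((K + 1) * z) * (2 * (K : ℝ) + 3) ^ z)) ≤
        (z + 1) ^ 2 * (4 * (4 ^ ((K + 1) * z) * (2 * (K : ℝ) + 3) ^ z)) :=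
      mul_le_mul_of_nonneg_right (by nlinarith) (by positivity)
    have h3 : P2 z * (H / K) = H * P2 z / K := by ring
    nlinarith

end Pool.Agent.Helper78.SI
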